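import Mathlib

/-!
Numerics for functions of determinants (row F7 of FD).
-/

namespace Helper86.FD

open Real

/-- `(t / (2 e))^2` is at most the local factor. -/
theorem left_ge {t N : ℕ} (ht : 100 ≤ t) (hN1 : (t : ℝ) * log t ≤ N)
    (hN2 : (N : ℝ) ≤ t * log t + 1) (htN : t < N) {D : ℕ} :
    ((t : ℝ) / (2 * exp 1)) ^ (2 * D) * (exp (-1 / t)) ^ ((N - t) * (2 * D)) ≤
      (1 - (1 - (exp (-1 / t)) ^ N) ^ (t + 1)) ^ (2 * D) := by
  have ht0 : (0 : ℝ) < t := by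
    have : (100 : ℝ) ≤ t := by exact_mod_cast ht
    linarith
  have ht1 : (100 : ℝ) ≤ t := by exact_mod_cast ht
  rw [pow_mul (exp (-1 / (t : ℝ)))  (N - t) (2 * D), ← mul_pow]
  -- `q ^ N = p`
  set p : ℝ := (exp (-1 / t)) ^ N with hp
  have hp1 : p = exp (-N / t) := by
    rw [hp, ← exp_nat_mul]
    congr 1
    ring
  have hp_le : p ≤ 1 / t := by
    rw [hp1, one_div, ← exp_log ht0, ← exp_neg, exp_log ht0, exp_le_exp]
    rw [div_le_iff₀ ht0]
    nlinarith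
  have hp_ge : exp (-1 / t) / t ≤ p := by
    rw [hp1]
    nth_rw 2 [← exp_log ht0]
    rw [← exp_sub, exp_le_exp, div_sub' (ne_of_gt ht0), div_le_div_iff_of_pos_right ht0]
    linarith
  have hp0 : 0 < p := by rw [hp1]; exact exp_pos _
  have hp_one : p ≤ 1 := by
    refine hp_le.trans ?_
    rw [div_le_one ht0]
    linarith
  -- the factor is at least one half
  have h1 : (1 - p) ^ (t + 1) ≤ 1 / 2 := by
    have h2 : 1 - p ≤ exp (-p) := by
      have := add_one_le_exp (-p)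
      linarith
    have h3 : (1 - p) ^ (t + 1) ≤ exp (-p) ^ (t + 1) := by
      apply pow_le_pow_left₀ (by linarith) h2
    refine h3.trans ?_
    rw [← exp_nat_mul]
    have h4 : (0.98 : ℝ) ≤ exp (-1 / t) := by
      have := add_one_le_exp (-1 / (t : ℝ))
      have h5 : -1 / (t : ℝ) ≥ -1 / 100 := by
        rw [ge_iff_le, div_le_div_iff₀ (by norm_num) ht0]
        linarith
      linarith
    have h6 : (0.98 : ℝ) ≤ ((t + 1 : ℕ) : ℝ) * p := by
      have h7 : (t : ℝ) * (exp (-1 / t) / t) = exp (-1 / t) := by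
        field_simp
      push_cast
      nlinarith
    have h8 : ((t + 1 : ℕ) : ℝ) * -p ≤ -0.98 := by linarith
    refine (exp_le_exp.mpr h8).trans ?_
    rw [exp_neg, one_div, inv_le_inv₀ (exp_pos _) (by norm_num)]
    have h9 : (2 : ℝ) ≤ 0.98 + 1 + 0.98 ^ 2 / 2 := by norm_num
    have h10 := quadratic_le_exp_of_nonneg (show (0 : ℝ) ≤ 0.98 by norm_num)
    linarith
  have h2 : (t : ℝ) / (2 * exp 1) * (exp (-1 / t)) ^ (N - t) ≤ 1 - (1 - p) ^ (t + 1) := by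
    have h3 : (exp (-1 / (t : ℝ))) ^ (N - t) ≤ exp 1 / t := by
      rw [← exp_nat_mul, Nat.cast_sub htN.le]
      nth_rw 3 [← exp_log ht0]
      rw [← exp_sub, exp_le_exp]
      have : ((N : ℝ) - t) * (-1 / t) = 1 - N / t := by
        field_simp
        ring
      rw [this]
      have : log t ≤ N / t := by
        rw [le_div_iff₀ ht0]
        linarith
      linarith
    calc (t : ℝ) / (2 * exp 1) * (exp (-1 / t)) ^ (N - t)
        ≤ (t : ℝ) / (2 * exp 1) * (exp 1 / t) := by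
          gcongr
      _ = 1 / 2 := by
          have : exp 1 ≠ 0 := (exp_pos 1).ne'
          field_simp
      _ ≤ _ := by linarith
  apply pow_le_pow_left₀ (by positivity) h2

/-- the main step: a good choice of `t` gives a lower bound of `T` -/
theorem step {n k M T t : ℕ} (hn : 2 ≤ n) (hk : 1 ≤ k) (hT : 1 ≤ T) (hnM : n ≤ M) (ht : 100 ≤ t)
    (htn : (3 : ℝ) * t * log n ≤ n)
    (hC : (10 : ℝ) ^ 6 * (k * M ^ 2 * log n) ≤ t ^ 3 * n)
    (H : ∀ D N a : ℕ, 1 ≤ D → a < N → D * (2 * (N + a) + 1) ≤ n → ∀ q : ℝ, 0 < q → q < 1 →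
      (1 - (1 - q ^ N) ^ (a + 1)) ^ (2 * D) ≤ q ^ ((N - a) * (2 * D)) *
        (T * (2 ^ D * ((2 * (k * (M * (1 - q) + 2 * D + 1) ^ 2)) ^ D / D.factorial)))) :
    n / (6 * t * log n) ≤ log (2 * T) := by
  have ht1 : (100 : ℝ) ≤ t := by exact_mod_cast ht
  have ht0 : (0 : ℝ) < t := by linarith
  have hn1 : (2 : ℝ) ≤ n := by exact_mod_cast hn
  have hn0 : (0 : ℝ) < n := by linarith
  have hk0 : (1 : ℝ) ≤ k := by exact_mod_cast hk
  have hT0 : (1 : ℝ) ≤ T := by exact_mod_cast hT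
  have hM0 : (n : ℝ) ≤ M := by exact_mod_cast hnM
  have hMp : (0 : ℝ) < M := by linarith
  set ℓ := log n with hℓ
  have hℓ2 : (0.69 : ℝ) ≤ ℓ := by
    have h1 := log_two_gt_d9
    have h2 : log 2 ≤ log n := log_le_log (by norm_num) hn1
    linarith
  have htn' : (t : ℝ) ≤ n := by nlinarith
  have hlt : log t ≤ ℓ := log_le_log ht0 htn'
  have hlt4 : 4 ≤ log t := by
    rw [le_log_iff_exp_le ht0]
    have h1 : exp (4 : ℝ) = exp 1 ^ 4 := by
      rw [← exp_nat_mul]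
      norm_num
    rw [h1]
    have h2 := exp_one_lt_d9
    have h3 : exp 1 ^ 4 ≤ (2.72 : ℝ) ^ 4 := by
      apply pow_le_pow_left₀ (exp_pos 1).le
      linarith
    refine h3.trans (le_trans ?_ ht1)
    norm_num
  have hℓ4 : 4 ≤ ℓ := by linarith
  have hℓ0 : 0 < ℓ := by linarith
  -- the numbers
  set N := ⌈(t : ℝ) * log t⌉₊ with hN
  have hN1 : (t : ℝ) * log t ≤ N := Nat.le_ceil _
  have hN2 : (N : ℝ) ≤ t * log t + 1 := (Nat.ceil_lt_add_one (by positivity)).le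
  have htN : t < N := by
    have : (t : ℝ) < N := by nlinarith
    exact_mod_cast this
  set x : ℝ := n / (3 * t * ℓ) with hx
  have hx1 : 1 ≤ x := by
    rw [hx, le_div_iff₀ (by positivity)]
    linarith
  set D := ⌊x⌋₊ with hD
  have hD1 : 1 ≤ D := by
    rw [hD, Nat.one_le_floor_iff]
    exact hx1
  have hDx : (D : ℝ) ≤ x := Nat.floor_le (by linarith)
  have hxD : x < D + 1 := Nat.lt_floor_add_one x
  have hD1' : (1 : ℝ) ≤ D := by exact_mod_cast hD1
  have hD2 : x / 2 ≤ D := by linarith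
  have hbox : D * (2 * (N + t) + 1) ≤ n := by
    have h1 : (2 : ℝ) * (N + t) + 1 ≤ 3 * t * ℓ := by nlinarith
    have h2 : (D : ℝ) * (2 * (N + t) + 1) ≤ n := by
      calc (D : ℝ) * (2 * (N + t) + 1) ≤ x * (3 * t * ℓ) := by gcongr
        _ = n := by
          rw [hx]
          field_simp
    exact_mod_cast h2
  set q : ℝ := exp (-1 / t) with hq
  have hq0 : 0 < q := exp_pos _
  have hq1 : q < 1 := by
    rw [hq, exp_lt_one_iff]
    apply div_neg_of_neg_of_pos (by norm_num) ht0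
  have hq2 : 1 - q ≤ 1 / t := by
    have := add_one_le_exp (-1 / (t : ℝ))
    rw [hq]
    have h2 : -1 / (t : ℝ) = -(1 / t) := by ring
    linarith
  have h1 := (left_ge ht hN1 hN2 htN (D := D)).trans (H D N t hD1 htN hbox q hq0 hq1)
  rw [← hq] at h1
  have hqp : 0 < q ^ ((N - t) * (2 * D)) := pow_pos hq0 _
  have h2 : ((t : ℝ) / (2 * exp 1)) ^ (2 * D) ≤
      T * (2 ^ D * ((2 * (k * (M * (1 - q) + 2 * D + 1) ^ 2)) ^ D / D.factorial)) := by
    rw [mul_comm] at h1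
    exact le_of_mul_le_mul_left h1 hqp
  -- the base
  have hDt : 2 * (D : ℝ) + 1 ≤ M / t := by
    have h3 : 3 * x ≤ M / t := by
      rw [hx, le_div_iff₀ ht0]
      calc 3 * ((n : ℝ) / (3 * t * ℓ)) * t = n / ℓ := by field_simp
        _ ≤ n / 1 := by
          apply div_le_div_of_nonneg_left hn0.le (by norm_num) (by linarith)
        _ ≤ M := by rw [div_one]; exact hM0
    linarith
  have hB : (M : ℝ) * (1 - q) + 2 * D + 1 ≤ 2 * M / t := by
    have h3 : (M : ℝ) * (1 - q) ≤ M / t := by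
      calc (M : ℝ) * (1 - q) ≤ M * (1 / t) := by gcongr
        _ = M / t := by ring
    have : 2 * (M : ℝ) / t = M / t + M / t := by ring
    linarith
  have hB0 : 0 ≤ (M : ℝ) * (1 - q) + 2 * D + 1 := by
    have : 0 ≤ 1 - q := by linarith
    positivity
  have hfac : (1 : ℝ) / D.factorial ≤ (exp 1 / D) ^ D := by
    have h3 := pow_div_factorial_le_exp (D : ℝ) (by positivity) D
    have h4 : exp (D : ℝ) = exp 1 ^ D := by
      rw [← exp_nat_mul, mul_one]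
    rw [div_pow, ← h4, le_div_iff₀ (by positivity)]
    calc (1 : ℝ) / D.factorial * D ^ D = D ^ D / D.factorial := by ring
      _ ≤ _ := h3
  have h3 : ((t : ℝ) / (2 * exp 1)) ^ (2 * D) ≤
      T * (16 * k * M ^ 2 / t ^ 2 * exp 1 / D) ^ D := by
    refine h2.trans ?_
    have h4 : (2 * (k * ((M : ℝ) * (1 - q) + 2 * D + 1) ^ 2)) ^ D ≤
        (2 * (k * (2 * M / t) ^ 2)) ^ D := by
      gcongr
    calc (T : ℝ) * (2 ^ D * ((2 * (k * (M * (1 - q) + 2 * D + 1) ^ 2)) ^ D / D.factorial))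
        = T * (2 ^ D * ((2 * (k * (M * (1 - q) + 2 * D + 1) ^ 2)) ^ D * (1 / D.factorial))) := by
          ring
      _ ≤ T * (2 ^ D * ((2 * (k * (2 * M / t) ^ 2)) ^ D * (exp 1 / D) ^ D)) := by
          gcongr
      _ = T * (16 * k * M ^ 2 / t ^ 2 * exp 1 / D) ^ D := by
          rw [← mul_pow, ← mul_pow]
          congr 2
          ring
  have h4 : exp D ≤ T := by
    have h5 : (exp 1 * (16 * k * M ^ 2 / t ^ 2 * exp 1 / D)) ^ D ≤
        ((t : ℝ) / (2 * exp 1)) ^ (2 * D) := by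
      rw [pow_mul]
      apply pow_le_pow_left₀ (by positivity)
      -- exp 1 * (16 k M^2 / t^2 * exp 1 / D) ≤ (t / (2 exp 1))^2
      have h6 : exp 1 ^ 4 ≤ (55 : ℝ) := by
        have h2 := exp_one_lt_d9
        have h3 : exp 1 ^ 4 ≤ (2.7183 : ℝ) ^ 4 := by
          apply pow_le_pow_left₀ (exp_pos 1).le
          linarith
        refine h3.trans ?_
        norm_num
      have h7 : (n : ℝ) / (6 * t * ℓ) ≤ D := by
        calc (n : ℝ) / (6 * t * ℓ) = x / 2 := by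
              rw [hx]
              field_simp
              norm_num
          _ ≤ D := hD2
      have h8 : (10 : ℝ) ^ 6 * (k * M ^ 2) ≤ 6 * t ^ 4 * D := by
        have h9 : (n : ℝ) ≤ D * (6 * t * ℓ) := by
          rwa [div_le_iff₀ (by positivity)] at h7
        have h10 : (10 : ℝ) ^ 6 * (k * M ^ 2 * ℓ) ≤ 6 * t ^ 4 * D * ℓ := by
          calc (10 : ℝ) ^ 6 * (k * M ^ 2 * ℓ) ≤ t ^ 3 * n := hC
            _ ≤ t ^ 3 * (D * (6 * t * ℓ)) := by gcongr
            _ = _ := by ring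
        have h11 : ((10 : ℝ) ^ 6 * (k * M ^ 2)) * ℓ ≤ (6 * t ^ 4 * D) * ℓ := by linarith
        exact le_of_mul_le_mul_right h11 hℓ0
      have h9 : exp 1 * (16 * (k : ℝ) * M ^ 2 / t ^ 2 * exp 1 / D) =
          16 * exp 1 ^ 2 * (k * M ^ 2) / (t ^ 2 * D) := by
        field_simp
      have h10 : ((t : ℝ) / (2 * exp 1)) ^ 2 = t ^ 2 / (4 * exp 1 ^ 2) := by
        rw [div_pow, mul_pow]
        norm_num
      have hkM : 0 ≤ (k : ℝ) * M ^ 2 := by positivity
      rw [h9, h10, div_le_div_iff₀ (by positivity) (by positivity)]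
      calc 16 * exp 1 ^ 2 * ((k : ℝ) * M ^ 2) * (4 * exp 1 ^ 2)
          = 64 * ((k : ℝ) * M ^ 2) * exp 1 ^ 4 := by ring
        _ ≤ 64 * ((k : ℝ) * M ^ 2) * 55 := by gcongr
        _ ≤ (t : ℝ) ^ 4 * D := by linarith
        _ = (t : ℝ) ^ 2 * (t ^ 2 * D) := by ring
    have h6 := h5.trans h3
    rw [mul_pow] at h6
    have h7 : 0 < (16 * (k : ℝ) * M ^ 2 / t ^ 2 * exp 1 / D) ^ D := by positivity
    have h8 := le_of_mul_le_mul_right h6 h7
    have h9 : exp (D : ℝ) = exp 1 ^ D := by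
      rw [← exp_nat_mul, mul_one]
    rw [h9]
    exact h8
  have h5 : (D : ℝ) ≤ log (2 * T) := by
    rw [le_log_iff_exp_le (by positivity)]
    linarith
  calc (n : ℝ) / (6 * t * ℓ) = x / 2 := by
        rw [hx]
        field_simp
        norm_num
    _ ≤ D := hD2
    _ ≤ _ := h5

/-- Numerics of the theorem on functions of determinants. -/
theorem num : ∃ c : ℝ, 0 < c ∧ ∀ n k M T : ℕ, 2 ≤ n → 1 ≤ k → 1 ≤ T → n ≤ M →
    (∀ D N a : ℕ, 1 ≤ D → a < N → D * (2 * (N + a) + 1) ≤ n → ∀ q : ℝ, 0 < q → q < 1 →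
      (1 - (1 - q ^ N) ^ (a + 1)) ^ (2 * D) ≤ q ^ ((N - a) * (2 * D)) *
        (T * (2 ^ D * ((2 * (k * (M * (1 - q) + 2 * D + 1) ^ 2)) ^ D / D.factorial)))) →
    c * n ^ 4 ≤ k * M ^ 2 * Real.log n ^ 4 * Real.log (2 * T) ^ 3 := by
  refine ⟨1 / 10 ^ 10, by norm_num, ?_⟩
  intro n k M T hn hk hT hnM H
  have hn1 : (2 : ℝ) ≤ n := by exact_mod_cast hn
  have hn0 : (0 : ℝ) < n := by linarith
  have hk0 : (1 : ℝ) ≤ k := by exact_mod_cast hk
  have hT0 : (1 : ℝ) ≤ T := by exact_mod_cast hT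
  have hM0 : (n : ℝ) ≤ M := by exact_mod_cast hnM
  have hMp : (0 : ℝ) < M := by linarith
  set ℓ := log n with hℓ
  have hℓ2 : (0.69 : ℝ) ≤ ℓ := by
    have h1 := log_two_gt_d9
    have h2 : log 2 ≤ log n := log_le_log (by norm_num) hn1
    linarith
  have hℓ0 : 0 < ℓ := by linarith
  have hlT : (0.69 : ℝ) ≤ log (2 * T) := by
    have h1 := log_two_gt_d9
    have h2 : log 2 ≤ log (2 * T) := log_le_log (by norm_num) (by linarith)
    linarith
  -- the cube root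
  set y : ℝ := 10 ^ 6 * (k * M ^ 2 * ℓ) / n with hy
  have hy6 : (10 : ℝ) ^ 6 ≤ y := by
    rw [hy, le_div_iff₀ hn0]
    have h1 : (n : ℝ) ≤ k * M ^ 2 * ℓ := by
      have h2 : (n : ℝ) ^ 2 ≤ M ^ 2 := by gcongr
      have h3 : (n : ℝ) * 1 ≤ n * (n * ℓ) := by
        gcongr
        nlinarith
      calc (n : ℝ) ≤ n ^ 2 * ℓ := by nlinarith
        _ ≤ M ^ 2 * ℓ := by gcongr
        _ = 1 * M ^ 2 * ℓ := by ring
        _ ≤ k * M ^ 2 * ℓ := by gcongr
    nlinarith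
  have hy0 : 0 < y := by linarith [show (0 : ℝ) < 10 ^ 6 by norm_num]
  set z : ℝ := y ^ ((1 : ℝ) / 3) with hz
  have hz3 : z ^ 3 = y := by
    rw [hz, ← rpow_natCast, ← rpow_mul hy0.le]
    norm_num
  have hz0 : 0 < z := by rw [hz]; positivity
  have hz100 : 100 ≤ z := by
    by_contra hcon
    push Not at hcon
    have h1 : z ^ 3 < 100 ^ 3 := pow_lt_pow_left₀ hcon hz0.le (by norm_num)
    rw [hz3] at h1
    norm_num at h1 hy6
    linarith
  set t := ⌈z⌉₊ with ht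
  have htz : z ≤ t := Nat.le_ceil _
  have htz2 : (t : ℝ) ≤ 2 * z := by
    have := Nat.ceil_lt_add_one hz0.le
    linarith
  have ht100 : 100 ≤ t := by
    have : (100 : ℝ) ≤ t := hz100.trans htz
    exact_mod_cast this
  have ht0 : (0 : ℝ) < t := by linarith
  have hyt : y ≤ t ^ 3 := by
    rw [← hz3]
    gcongr
  have hty : (t : ℝ) ^ 3 ≤ 8 * y := by
    calc (t : ℝ) ^ 3 ≤ (2 * z) ^ 3 := by gcongr
      _ = 8 * y := by rw [mul_pow, hz3]; norm_num
  have hC : (10 : ℝ) ^ 6 * (k * M ^ 2 * ℓ) ≤ t ^ 3 * n := by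
    rw [hy, div_le_iff₀ hn0] at hyt
    exact hyt
  have hyn : y * n = 10 ^ 6 * (k * M ^ 2 * ℓ) := by
    rw [hy]
    field_simp
  -- lower bound of `t * log (2T) * ℓ`
  have key : (n : ℝ) ≤ 6 * t * ℓ * log (2 * T) := by
    by_cases htn : (3 : ℝ) * t * ℓ ≤ n
    · have h1 := step hn hk hT hnM ht100 htn hC H
      rwa [div_le_iff₀ (by positivity), mul_comm] at h1
    · push Not at htn
      have h2 : (3 : ℝ) * t * ℓ * 1 ≤ 3 * t * ℓ * (2 * log (2 * T)) := by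
        gcongr
        linarith
      linarith
  have key3 : (n : ℝ) ^ 3 ≤ (6 * t * ℓ * log (2 * T)) ^ 3 := by gcongr
  have h1 : (n : ℝ) ^ 3 ≤ 1728 * (y * ℓ ^ 3 * log (2 * T) ^ 3) := by
    calc (n : ℝ) ^ 3 ≤ (6 * t * ℓ * log (2 * T)) ^ 3 := key3
      _ = 216 * (t ^ 3 * (ℓ ^ 3 * log (2 * T) ^ 3)) := by ring
      _ ≤ 216 * ((8 * y) * (ℓ ^ 3 * log (2 * T) ^ 3)) := by gcongr
      _ = _ := by ring
  have h2 : (n : ℝ) ^ 4 ≤ 1728 * 10 ^ 6 * (k * M ^ 2 * ℓ ^ 4 * log (2 * T) ^ 3) := by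
    calc (n : ℝ) ^ 4 = n ^ 3 * n := by ring
      _ ≤ 1728 * (y * ℓ ^ 3 * log (2 * T) ^ 3) * n := by gcongr
      _ = 1728 * (y * n) * (ℓ ^ 3 * log (2 * T) ^ 3) := by ring
      _ = 1728 * (10 ^ 6 * (k * M ^ 2 * ℓ)) * (ℓ ^ 3 * log (2 * T) ^ 3) := by rw [hyn]
      _ = _ := by ring
  have h3 : 0 ≤ (k : ℝ) * M ^ 2 * ℓ ^ 4 * log (2 * T) ^ 3 := by positivity
  rw [one_div, inv_mul_le_iff₀ (by norm_num)]
  refine h2.trans ?_
  gcongr
  norm_num

end Helper86.FD
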